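import Pool.Agent.W516.MT.Stmt

/-!
# Powers of matrices congruent to one
-/

namespace Pool.Agent.W565.MT

open Finset

variable {ℓ : ℕ} [Fact ℓ.Prime] {n : ℕ}

theorem mul_bound (X Y : Matrix (Fin n) (Fin n) ℚ_[ℓ]) (a b : ℝ) (ha : 0 ≤ a) (hb : 0 ≤ b)
    (hX : ∀ i j, ‖X i j‖ ≤ a) (hY : ∀ i j, ‖Y i j‖ ≤ b) : ∀ i j, ‖(X * Y) i j‖ ≤ a * b := by
  intro i j
  rw [Matrix.mul_apply]
  refine IsUltrametricDist.norm_sum_le_of_forall_le_of_nonneg (mul_nonneg ha hb) ?_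
  intro k _
  rw [norm_mul]
  exact mul_le_mul (hX i k) (hY k j) (norm_nonneg _) ha

theorem pow_bound (X : Matrix (Fin n) (Fin n) ℚ_[ℓ]) (a : ℝ) (ha : 0 ≤ a)
    (hX : ∀ i j, ‖X i j‖ ≤ a) (m : ℕ) : ∀ i j, ‖(X ^ (m + 1)) i j‖ ≤ a ^ (m + 1) := by
  induction m with
  | zero => simpa using hX
  | succ m ih =>
    rw [pow_succ X, pow_succ a]
    exact mul_bound _ _ _ _ (by positivity) ha ih hX

theorem norm_dvd (c : ℕ) (h : ℓ ∣ c) : ‖(c : ℚ_[ℓ])‖ ≤ (ℓ : ℝ)⁻¹ := by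
  obtain ⟨d, rfl⟩ := h
  rw [Nat.cast_mul, norm_mul, Padic.norm_p]
  have h1 : ‖(d : ℚ_[ℓ])‖ ≤ 1 := by
    have := Padic.norm_int_le_one (p := ℓ) (d : ℤ)
    simpa using this
  have h2 : (0 : ℝ) ≤ (ℓ : ℝ)⁻¹ := by positivity
  nlinarith

theorem step (A : Matrix (Fin n) (Fin n) ℚ_[ℓ]) (r : ℝ) (hr : 0 ≤ r)
    (hr2 : r ≤ (ℓ : ℝ) ^ (-2 : ℤ)) (hA : ∀ i j, ‖(A - 1) i j‖ ≤ r) :
    ∀ i j, ‖(A ^ ℓ - 1) i j‖ ≤ (ℓ : ℝ)⁻¹ * r := by
  intro i j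
  have hp : ℓ.Prime := Fact.out
  have hl2 : (2 : ℝ) ≤ ℓ := by exact_mod_cast hp.two_le
  have hl0 : (0 : ℝ) < ℓ := by linarith
  have hinv : (0 : ℝ) < (ℓ : ℝ)⁻¹ := by positivity
  have hinv1 : (ℓ : ℝ)⁻¹ ≤ 1 := inv_le_one_of_one_le₀ (by linarith)
  have hr1 : r ≤ (ℓ : ℝ)⁻¹ * (ℓ : ℝ)⁻¹ := by
    refine hr2.trans_eq ?_
    rw [zpow_neg, ← mul_inv]
    congr 1
    norm_cast
    ring
  have hr3 : r ≤ (ℓ : ℝ)⁻¹ := by nlinarith
  have hr4 : r ≤ 1 := hr3.trans hinv1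
  obtain ⟨N, hN⟩ : ∃ N, N = A - 1 := ⟨_, rfl⟩
  have hAN : A = N + 1 := by rw [hN]; abel
  rw [← hN] at hA
  have key : A ^ ℓ - 1 = ∑ m ∈ range ℓ, N ^ (m + 1) * ((ℓ.choose (m + 1) : ℕ) :
      Matrix (Fin n) (Fin n) ℚ_[ℓ]) := by
    rw [hAN, (Commute.one_right N).add_pow, Finset.sum_range_succ']
    simp
  rw [key, Matrix.sum_apply]
  refine IsUltrametricDist.norm_sum_le_of_forall_le_of_nonneg (by positivity) ?_
  intro m hm
  rw [Finset.mem_range] at hm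
  have hentry : (N ^ (m + 1) * ((ℓ.choose (m + 1) : ℕ) : Matrix (Fin n) (Fin n) ℚ_[ℓ])) i j =
      (N ^ (m + 1)) i j * ((ℓ.choose (m + 1) : ℕ) : ℚ_[ℓ]) := by
    rw [← nsmul_eq_mul', Matrix.smul_apply, nsmul_eq_mul, mul_comm]
  rw [hentry, norm_mul]
  have hb := pow_bound N r hr hA m i j
  have hrm : r ^ (m + 1) ≤ r := by
    rw [pow_succ]
    have : r ^ m ≤ 1 := pow_le_one₀ hr hr4
    nlinarith
  by_cases h : m + 1 < ℓ
  · have hd : ℓ ∣ ℓ.choose (m + 1) := hp.dvd_choose_self (by omega) h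
    have h1 := norm_dvd (ℓ := ℓ) _ hd
    rw [mul_comm]
    exact mul_le_mul h1 (hb.trans hrm) (norm_nonneg _) hinv.le
  · have hm1 : m + 1 = ℓ := by omega
    rw [hm1, Nat.choose_self, Nat.cast_one, norm_one, mul_one]
    rw [hm1] at hb
    refine hb.trans ?_
    have h2 : r ^ ℓ ≤ r ^ 2 := pow_le_pow_of_le_one hr hr4 hp.two_le
    refine h2.trans ?_
    rw [pow_two]
    exact mul_le_mul_of_nonneg_right hr3 hr

theorem T_PADA : Pool.Agent.W516.MTS.S_PADA := by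
  intro ℓ hℓ n T hT k
  induction k with
  | zero =>
    intro i j
    have := hT i j
    simpa using this
  | succ k ih =>
    intro i j
    have hp : ℓ.Prime := Fact.out
    have hl2 : (2 : ℝ) ≤ ℓ := by exact_mod_cast hp.two_le
    rw [pow_succ, pow_mul]
    have h := step (T ^ (ℓ ^ k)) ((ℓ : ℝ) ^ (-2 - k : ℤ)) (by positivity)
      (zpow_le_zpow_right₀ (by linarith) (by omega)) ih i j
    refine h.trans_eq ?_
    rw [← zpow_neg_one, ← zpow_add₀ (by linarith)]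
    congr 1
    push_cast
    ring

end Pool.Agent.W565.MT
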